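import Pool.Agent.Helper53.KC.Goals

/-!
# Sparse paving matroids
-/

namespace Pool.Agent.Helper51.KC

open Finset Pool.Agent.Helper53.KC

variable {n : ℕ}

/-- Candidate bases. -/
def BB (r : ℕ) (S : Finset (Finset (Fin n))) (B : Set (Fin n)) : Prop :=
  ∃ F : Finset (Fin n), (F : Set (Fin n)) = B ∧ F ∈ V n r ∧ F ∉ S

lemma adj_swap {r : ℕ} {B : Finset (Fin n)} {e f f' : Fin n} (hB : B.card = r) (he : e ∈ B)
    (hf : f ∉ B) (hf' : f' ∉ B) (hne : f ≠ f') :
    adj (insert f (B.erase e)) (insert f' (B.erase e)) := by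
  have hf1 : f ∉ B.erase e := fun h => hf (mem_of_mem_erase h)
  have hf1' : f' ∉ B.erase e := fun h => hf' (mem_of_mem_erase h)
  have hc := card_erase_of_mem he
  have hpos : 0 < B.card := card_pos.2 ⟨e, he⟩
  refine ⟨by rw [card_insert_of_notMem hf1, card_insert_of_notMem hf1'], ?_⟩
  have hi : insert f (B.erase e) ∩ insert f' (B.erase e) = B.erase e := by
    ext x
    simp only [mem_inter, mem_insert]
    constructor
    · rintro ⟨h1 | h1, h2 | h2⟩
      · exact absurd (h1.symm.trans h2) hne
      · exact h2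
      · exact h1
      · exact h1
    · intro h
      exact ⟨Or.inr h, Or.inr h⟩
  rw [hi, card_insert_of_notMem hf1]

lemma exch (r : ℕ) (S : Finset (Finset (Fin n))) (hst : Stb S) :
    Matroid.ExchangeProperty (BB r S) := by
  rintro _ _ ⟨B, rfl, hB, hBS⟩ ⟨B', rfl, hB', hBS'⟩ e he
  have hBc : B.card = r := (mem_powersetCard.1 hB).2
  have hBc' : B'.card = r := (mem_powersetCard.1 hB').2
  have heB : e ∈ B := by simpa using he.1
  have heB' : e ∉ B' := by simpa using he.2
  by_contra hcon
  push Not at hcon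
  have key : ∀ f ∈ B' \ B, insert f (B.erase e) ∈ S := by
    intro f hf
    rw [mem_sdiff] at hf
    by_contra hfS
    refine hcon f ⟨by simpa using hf.1, by simpa using hf.2⟩
      ⟨insert f (B.erase e), by simp, ?_, hfS⟩
    refine mem_powersetCard.2 ⟨subset_univ _, ?_⟩
    have hf1 : f ∉ B.erase e := fun h => hf.2 (mem_of_mem_erase h)
    have hpos : 0 < B.card := card_pos.2 ⟨e, heB⟩
    rw [card_insert_of_notMem hf1, card_erase_of_mem heB]
    omega
  have hcard : (B \ B').card = (B' \ B).card := card_sdiff_comm (hBc.trans hBc'.symm)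
  have hpos : 0 < (B' \ B).card := by
    rw [← hcard]
    exact card_pos.2 ⟨e, mem_sdiff.2 ⟨heB, heB'⟩⟩
  rcases Nat.lt_or_ge 1 (B' \ B).card with h1 | h1
  · obtain ⟨f, hf, f', hf', hne⟩ := one_lt_card.1 h1
    exact hst _ (key f hf) _ (key f' hf')
      (adj_swap hBc heB (mem_sdiff.1 hf).2 (mem_sdiff.1 hf').2 hne)
  · have h1' : (B' \ B).card = 1 := by omega
    obtain ⟨f, hf⟩ := card_eq_one.1 h1'
    have h2' : (B \ B').card = 1 := by omega
    obtain ⟨g, hg⟩ := card_eq_one.1 h2'
    have hge : g = e := by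
      have : e ∈ B \ B' := mem_sdiff.2 ⟨heB, heB'⟩
      rw [hg, mem_singleton] at this
      exact this.symm
    subst hge
    have hfm : f ∈ B' \ B := by rw [hf]; exact mem_singleton_self f
    have hk := key f hfm
    have heq : insert f (B.erase g) = B' := by
      ext x
      simp only [mem_insert, mem_erase]
      constructor
      · rintro (rfl | ⟨h1, h2⟩)
        · exact (mem_sdiff.1 hfm).1
        · by_contra hx
          have : x ∈ B \ B' := mem_sdiff.2 ⟨h2, hx⟩
          rw [hg, mem_singleton] at this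
          exact h1 this
      · intro hx
        by_cases hxB : x ∈ B
        · right
          refine ⟨?_, hxB⟩
          rintro rfl
          exact heB' hx
        · left
          have : x ∈ B' \ B := mem_sdiff.2 ⟨hx, hxB⟩
          rw [hf, mem_singleton] at this
          exact this
    rw [heq] at hk
    exact hBS' hk

lemma exB (r : ℕ) (S : Finset (Finset (Fin n))) (h1 : 1 ≤ r) (hr : r < n) (hst : Stb S) :
    ∃ B, BB r S B := by
  -- an `r`-set
  obtain ⟨B, hBs, hBc⟩ := exists_subset_card_eq (s := (univ : Finset (Fin n))) (n := r)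
    (by simpa using hr.le)
  by_cases hBS : B ∈ S
  · obtain ⟨e, he⟩ : B.Nonempty := card_pos.1 (by omega)
    obtain ⟨f, hf⟩ : ∃ f, f ∉ B := by
      by_contra hcon
      push Not at hcon
      have : B = univ := eq_univ_iff_forall.2 hcon
      rw [this, card_univ, Fintype.card_fin] at hBc
      omega
    have hf1 : f ∉ B.erase e := fun h => hf (mem_of_mem_erase h)
    have hadj : adj B (insert f (B.erase e)) := by
      refine ⟨?_, ?_⟩
      · rw [card_insert_of_notMem hf1, card_erase_of_mem he]
        omega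
      · have : B ∩ insert f (B.erase e) = B.erase e := by
          ext x
          simp only [mem_inter, mem_insert, mem_erase]
          constructor
          · rintro ⟨h1, h2 | h2⟩
            · exact absurd (h2 ▸ h1) hf
            · exact h2
          · rintro ⟨h1, h2⟩
            exact ⟨h2, Or.inr ⟨h1, h2⟩⟩
        rw [this, card_erase_of_mem he]
        omega
    refine ⟨_, insert f (B.erase e), rfl, ?_, fun h => hst _ hBS _ h hadj⟩
    refine mem_powersetCard.2 ⟨subset_univ _, ?_⟩
    rw [card_insert_of_notMem hf1, card_erase_of_mem he]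
    omega
  · exact ⟨_, B, rfl, mem_powersetCard.2 ⟨subset_univ _, hBc⟩, hBS⟩

theorem spm : SpmStmt := by
  classical
  intro n r S h1 hr hSV hst
  let M : Matroid (Fin n) := Matroid.ofIsBaseOfFinite (E := Set.univ) Set.finite_univ (BB r S)
    (exB r S h1 hr hst) (exch r S hst) (fun B _ => Set.subset_univ B)
  have hMB : ∀ B, M.IsBase B ↔ BB r S B := fun B => by
    simp only [M, Matroid.ofIsBaseOfFinite_isBase]
  have hrank : M.eRank = (r : ℕ∞) := by
    obtain ⟨B, hB⟩ := exB r S h1 hr hst
    have hb : M.IsBase B := (hMB B).2 hB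
    rw [← hb.encard_eq_eRank]
    obtain ⟨F, rfl, hF, -⟩ := hB
    rw [Set.encard_coe_eq_coe_finsetCard, (mem_powersetCard.1 hF).2]
  refine ⟨M, ⟨rfl, hrank⟩, ?_⟩
  ext X
  simp only [NB, mem_filter]
  constructor
  · rintro ⟨hX, hni⟩
    by_contra hXS
    exact hni ((hMB _).2 ⟨X, rfl, hX, hXS⟩).indep
  · intro hX
    refine ⟨hSV hX, fun hi => ?_⟩
    have hXc : X.card = r := (mem_powersetCard.1 (hSV hX)).2
    obtain ⟨B, hB, hXB⟩ := hi.exists_isBase_superset
    obtain ⟨F, rfl, hF, hFS⟩ := (hMB B).1 hB
    have hsub : X ⊆ F := by exact_mod_cast hXB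
    have : X = F := eq_of_subset_of_card_le hsub (by rw [hXc, (mem_powersetCard.1 hF).2])
    exact hFS (this ▸ hX)

end Pool.Agent.Helper51.KC
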